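import Pool.Agent.Helper41.LF.GoalsB

/-!
# Project LF, packet CNT: counting polynomials with a small value
-/

set_option autoImplicit false

namespace Pool.Agent.Helper41.LF

open MeasureTheory Finset Pool.Agent.Helper92

/-- Two elements with the same higher coefficients have constant coefficients at distance at most `2 δ`. -/
private lemma cnt_sum (d : ℕ) (θ : ℝ) (a : Fin (d + 1) → ℤ) :
    ∑ i : Fin (d + 1), (a i : ℝ) * θ ^ (i : ℕ)
      = a 0 + ∑ i : Fin d, ((fun i : Fin d => a i.succ) i : ℝ) * θ ^ ((i : ℕ) + 1) := by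
  rw [Fin.sum_univ_succ]
  simp

private lemma cnt_ext {d : ℕ} {a b : Fin (d + 1) → ℤ} (h0 : a 0 = b 0)
    (h : (fun i : Fin d => a i.succ) = fun i : Fin d => b i.succ) : a = b := by
  ext i
  refine Fin.cases h0 (fun i => ?_) i
  exact congrFun h i

private lemma cnt_box_card (d H : ℕ) : (Avg.box d H).card = (2 * H + 1) ^ d := by
  unfold Avg.box
  rw [Fintype.card_piFinset_const, Int.card_Icc]
  congr 1
  omega

theorem thm_CNT : S_CNT := by
  classical
  intro d hd
  have hdR : (1 : ℝ) ≤ d := by exact_mod_cast hd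
  refine ⟨192 * (12 * (d : ℝ)) ^ d, by positivity, ?_⟩
  intro H θ δ hH hδ hN
  have hHR : (1 : ℝ) ≤ H := by exact_mod_cast hH
  have hT : ∀ a ∈ smallVal d H θ δ, (∀ i, |a i| ≤ (H : ℤ)) ∧
      |(a 0 : ℝ) + ∑ i : Fin d, ((fun i : Fin d => a i.succ) i : ℝ) * θ ^ ((i : ℕ) + 1)| ≤ δ := by
    intro a ha
    unfold smallVal at ha
    rw [mem_filter, Avg.mem_box, cnt_sum] at ha
    exact ha
  by_cases h2 : δ < 1 / 2
  · have hS := Avg2.card_near_shift (d := d) (H := H) (by omega) (by omega)
      (fun i : Fin d => θ ^ ((i : ℕ) + 1)) 0 hδ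
      ((smallVal d H θ δ).image fun a => fun i : Fin d => a i.succ) ?_
    · have hpos : Field.posSet (fun i : Fin d => θ ^ ((i : ℕ) + 1)) (Field.Kof δ)
          (1 / (6 * d * H)) = ∅ := by
        unfold Field.posSet
        rw [filter_eq_empty_iff]
        intro l hl hcon
        rw [mem_range] at hl
        exact hN l hcon.1 hl hcon.2
      rw [hpos, card_empty, card_image_of_injOn] at hS
      · refine hS.trans (le_of_eq ?_)
        push_cast
        ring
      · intro a ha b hb hab
        rw [Finset.mem_coe] at ha hb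
        have h1 := (hT a ha).2
        have h1' := (hT b hb).2
        have hab' : (fun i : Fin d => a i.succ) = fun i : Fin d => b i.succ := hab
        refine cnt_ext ?_ hab'
        rw [hab'] at h1
        have h3 : |((a 0 - b 0 : ℤ) : ℝ)| < 1 := by
          push_cast
          rw [abs_le] at h1 h1'
          rw [abs_lt]
          constructor <;> linarith [h1.1, h1.2, h1'.1, h1'.2]
        have h5 : |a 0 - b 0| < 1 := by exact_mod_cast h3
        have h6 := Int.abs_lt_one_iff.mp h5
        linarith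
    · intro b hb
      rw [mem_image] at hb
      obtain ⟨a, ha, rfl⟩ := hb
      refine ⟨fun i => (hT a ha).1 _, -a 0, ?_⟩
      have h3 := (hT a ha).2
      have e1 : ∑ i, ((a (Fin.succ i) : ℤ) : ℝ) * θ ^ ((i : ℕ) + 1) + 0 - ((-a 0 : ℤ) : ℝ)
          = (a 0 : ℝ) + ∑ i : Fin d, ((fun i : Fin d => a i.succ) i : ℝ) * θ ^ ((i : ℕ) + 1) := by
        push_cast
        ring
      rw [e1]
      exact h3
  · push Not at h2
    set T := smallVal d H θ δ with hTdef
    have hmaps : ∀ a ∈ T, (fun i : Fin d => a i.succ) ∈ Avg.box d H := by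
      intro a ha
      rw [Avg.mem_box]
      intro i
      exact (hT a ha).1 _
    have hcount := Finset.card_eq_sum_card_fiberwise
      (f := fun a : Fin (d + 1) → ℤ => fun i : Fin d => a i.succ) (s := T) (t := Avg.box d H) hmaps
    have hbound : ∀ t ∈ Avg.box d H,
        ((T.filter fun a => (fun i : Fin d => a i.succ) = t).card : ℝ) ≤ 4 * δ := by
      intro t _
      set s : ℝ := ∑ i : Fin d, (t i : ℝ) * θ ^ ((i : ℕ) + 1) with hs
      have hle : (T.filter fun a => (fun i : Fin d => a i.succ) = t).card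
          ≤ (Finset.Icc ⌈-s - δ⌉ ⌊-s + δ⌋).card := by
        refine card_le_card_of_injOn (fun a => a 0) ?_ ?_
        · intro a ha
          rw [Finset.mem_coe, mem_filter] at ha
          have h3 := (hT a ha.1).2
          rw [ha.2, ← hs, abs_le] at h3
          rw [Finset.mem_coe, Finset.mem_Icc]
          constructor
          · rw [Int.ceil_le]; linarith [h3.1]
          · rw [Int.le_floor]; linarith [h3.2]
        · intro a ha b hb hab
          rw [Finset.mem_coe, mem_filter] at ha hb
          exact cnt_ext hab (ha.2.trans hb.2.symm)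
      have hIcc : ((Finset.Icc ⌈-s - δ⌉ ⌊-s + δ⌋).card : ℝ) ≤ 2 * δ + 1 := by
        rw [Int.card_Icc]
        rcases le_or_gt (⌊-s + δ⌋ + 1 - ⌈-s - δ⌉) 0 with h | h
        · rw [Int.toNat_of_nonpos h]
          push_cast
          linarith
        · have h4 : (((⌊-s + δ⌋ + 1 - ⌈-s - δ⌉).toNat : ℤ) : ℝ)
              = ((⌊-s + δ⌋ + 1 - ⌈-s - δ⌉ : ℤ) : ℝ) := by
            rw [Int.toNat_of_nonneg h.le]
          have h5 : (((⌊-s + δ⌋ + 1 - ⌈-s - δ⌉).toNat : ℕ) : ℝ)
              = ((⌊-s + δ⌋ + 1 - ⌈-s - δ⌉ : ℤ) : ℝ) := by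
            rw [← h4]; push_cast; rfl
          rw [h5]
          push_cast
          have h6 := Int.floor_le (-s + δ)
          have h7 := Int.le_ceil (-s - δ)
          linarith
      calc ((T.filter fun a => (fun i : Fin d => a i.succ) = t).card : ℝ)
          ≤ ((Finset.Icc ⌈-s - δ⌉ ⌊-s + δ⌋).card : ℝ) := by exact_mod_cast hle
        _ ≤ 2 * δ + 1 := hIcc
        _ ≤ 4 * δ := by linarith
    have hboxcard : ((Avg.box d H).card : ℝ) = (2 * (H : ℝ) + 1) ^ d := by
      rw [cnt_box_card]; push_cast; ring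
    have hpow : (2 * (H : ℝ) + 1) ^ d ≤ (12 * (d : ℝ)) ^ d * (H : ℝ) ^ d := by
      rw [← mul_pow]
      apply pow_le_pow_left₀ (by positivity)
      nlinarith
    calc (T.card : ℝ)
        = ∑ t ∈ Avg.box d H, ((T.filter fun a => (fun i : Fin d => a i.succ) = t).card : ℝ) := by
          exact_mod_cast hcount
      _ ≤ ∑ t ∈ Avg.box d H, 4 * δ := Finset.sum_le_sum hbound
      _ = (2 * (H : ℝ) + 1) ^ d * (4 * δ) := by rw [sum_const, nsmul_eq_mul, hboxcard]
      _ ≤ ((12 * (d : ℝ)) ^ d * (H : ℝ) ^ d) * (4 * δ) := by gcongr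
      _ ≤ ((12 * (d : ℝ)) ^ d * (H : ℝ) ^ d) * (192 * δ) := by
          apply mul_le_mul_of_nonneg_left _ (by positivity)
          linarith
      _ = 192 * (12 * (d : ℝ)) ^ d * (H : ℝ) ^ d * δ := by ring

end Pool.Agent.Helper41.LF
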